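import Pool.Agent.Helper50.AD.Main

set_option autoImplicit false

/-!
# The filling relation

If every strand moves all points less than `m⁻¹` does then the product `μ` of `n` strands moves some
point less than `m⁻¹ ^ (n - 2)` does. Therefore `μ ^ q = m⁻¹ ^ P` is impossible for
`(n - 2) q ≤ P`, `P > 0`.
-/

namespace Pool.Agent.Helper50.AD

variable {G H : Type*} [Group G] [Group H] [LinearOrder H]
variable {d : G →* ℤˣ} {φ : d.ker →* H} (hinv : ∀ a b c : H, a ≤ b ↔ c * a ≤ c * b)

include hinv

theorem up_pow {M : G} (hM : ∀ s, Lt φ s (M * (M * s))) (e : ℕ) (he : 1 ≤ e) (s : G) :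
    Lt φ s (M ^ (2 * e) * s) := by
  induction e with
  | zero => omega
  | succ e ih =>
    have h1 : M ^ (2 * (e + 1)) * s = M * (M * (M ^ (2 * e) * s)) := by
      rw [mul_add, pow_add]
      have : M ^ (2 * e) * M ^ (2 * 1) = M * M * M ^ (2 * e) := by
        rw [← pow_add, ← pow_two, ← pow_add]; congr 1; omega
      rw [this]; group
    rw [h1]
    rcases Nat.eq_zero_or_pos e with rfl | h
    · simpa using hM s
    · exact (ih h).trans hinv (hM _)

theorem prod_le {M : G} (l : List G) (hl : ∀ y ∈ l, ∀ s, Lt φ (y * s) (M * s)) (s : G) :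
    Le φ (l.prod * s) (M ^ l.length * s) ∧ (1 ≤ l.length → Lt φ (l.prod * s) (M ^ l.length * s)) := by
  induction l with
  | nil =>
    simp only [List.prod_nil, List.length_nil, pow_zero, one_mul]
    exact ⟨Le.refl s, fun h => by omega⟩
  | cons a l ih =>
    have h1 := ih fun y hy => hl y (List.mem_cons_of_mem a hy)
    have h2 : Lt φ ((a :: l).prod * s) (M ^ (a :: l).length * s) := by
      have e1 : (a :: l).prod * s = a * (l.prod * s) := by rw [List.prod_cons]; group
      have e2 : M ^ (a :: l).length * s = M * (M ^ l.length * s) := by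
        rw [List.length_cons, pow_succ', mul_assoc]
      rw [e1, e2]
      exact ((mul_left_le a).mpr h1.1).trans_lt hinv (hl a List.mem_cons_self _)
    exact ⟨h2.le, fun _ => h2⟩

theorem no_filling {M : G} (dM : d M = -1) (hM : ∀ s, Lt φ s (M * (M * s))) (l : List G)
    (hl : ∀ y ∈ l, ∀ s, Lt φ (y * s) (M * s)) (hsq : ∀ y ∈ l, y * y = 1) (hdl : ∀ y ∈ l, d y = -1)
    (hcomm : l.prod * M = M * l.prod) {P q : ℕ} (hP : 1 ≤ P)
    (hPq : ((l.length : ℤ) - 2) * q ≤ P) (hrel : l.prod ^ q = M ^ P) : False := by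
  have dl : ∀ l : List G, (∀ y ∈ l, d y = -1) → d l.prod = (-1) ^ l.length := by
    intro l
    induction l with
    | nil => intro _; simp
    | cons a l ih =>
      intro h
      rw [List.prod_cons, map_mul, h a List.mem_cons_self,
        ih fun y hy => h y (List.mem_cons_of_mem a hy), List.length_cons, pow_succ']
  have noeven : ∀ e : ℕ, 1 ≤ e → M ^ (2 * e) ≠ 1 := by
    intro e he h
    have := up_pow hinv hM e he 1
    rw [h, mul_one] at this
    exact this.irrefl
  rcases l.eq_nil_or_concat' with rfl | ⟨l₁, b, rfl⟩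
  · rw [List.prod_nil, one_pow] at hrel
    have h1 := congrArg d hrel
    rw [map_one, map_pow, dM] at h1
    have h2 : Even P := by
      by_contra h
      rw [Nat.not_even_iff_odd] at h
      rw [h.neg_one_pow] at h1
      exact absurd h1 (by decide)
    obtain ⟨e, he⟩ := h2
    exact noeven e (by omega) (by rw [two_mul, ← he, ← hrel])
  rcases l₁.eq_nil_or_concat' with rfl | ⟨l₂, a, rfl⟩
  · rw [List.nil_append, List.prod_singleton] at hrel
    have hb := hsq b (by simp)
    refine noeven P hP ?_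
    rw [mul_comm, pow_mul, ← hrel, ← pow_mul, mul_comm, pow_mul, pow_two, hb, one_pow]
  -- at least two strands
  set c := l₂.length with hc
  have ha : a * a = 1 := hsq a (by simp)
  have hb : b * b = 1 := hsq b (by simp)
  have da : d a = -1 := hdl a (by simp)
  have db : d b = -1 := hdl b (by simp)
  set μ := (l₂ ++ [a] ++ [b]).prod with hμ
  have hμ' : μ = l₂.prod * (a * b) := by
    rw [hμ, List.prod_append, List.prod_append, List.prod_singleton, List.prod_singleton, mul_assoc]
  have hex : ∃ s, Le φ (a * b * s) s := by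
    rcases le_or_lt (φ := φ) (a := a * b) (b := 1) hinv (by rw [map_mul, da, db, map_one]; decide)
      with h | h
    · exact ⟨1, by rwa [mul_one]⟩
    · refine ⟨b, ?_⟩
      have h1 := ((mul_left_lt a).mpr h).le
      rw [← mul_assoc, ha, one_mul, mul_one] at h1
      rwa [mul_assoc, hb, mul_one]
  obtain ⟨s, hs⟩ := hex
  have hlen : (l₂ ++ [a] ++ [b]).length = c + 2 := by simp [hc]
  have h1 : Le φ (μ * s) (M ^ c * s) ∧ (1 ≤ c → Lt φ (μ * s) (M ^ c * s)) := by
    have e : μ * s = l₂.prod * (a * b * s) := by rw [hμ', mul_assoc]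
    have h2 : Le φ (μ * s) (l₂.prod * s) := by rw [e]; exact (mul_left_le _).mpr hs
    have h3 := prod_le hinv l₂ (fun y hy => hl y (by simp [hy])) s
    exact ⟨h2.trans hinv h3.1, fun h => h2.trans_lt hinv (h3.2 h)⟩
  have hcp : ∀ k : ℕ, μ * M ^ k = M ^ k * μ := by
    intro k
    have : Commute μ M := hcomm
    exact (this.pow_right k).eq
  have h2 : ∀ j : ℕ, Le φ (μ ^ j * s) (M ^ (c * j) * s) ∧
      (1 ≤ c → 1 ≤ j → Lt φ (μ ^ j * s) (M ^ (c * j) * s)) := by
    intro j
    induction j with
    | zero => simpa using Le.refl (φ := φ) s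
    | succ j ih =>
      have e1 : μ ^ (j + 1) * s = μ * (μ ^ j * s) := by rw [pow_succ', mul_assoc]
      have e2 : M ^ (c * (j + 1)) * s = M ^ (c * j) * (M ^ c * s) := by
        rw [mul_add, mul_one, pow_add, mul_assoc]
      have e3 : μ * (M ^ (c * j) * s) = M ^ (c * j) * (μ * s) := by
        rw [← mul_assoc, hcp, mul_assoc]
      have h3 : Le φ (μ ^ (j + 1) * s) (M ^ (c * j) * (μ * s)) := by
        rw [e1, ← e3]; exact (mul_left_le _).mpr ih.1
      rw [e2]
      exact ⟨h3.trans hinv ((mul_left_le _).mpr h1.1),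
        fun h _ => h3.trans_lt hinv ((mul_left_lt _).mpr (h1.2 h))⟩
  have h3 := h2 q
  rw [hrel] at h3
  have hle : c * q ≤ P := by
    rw [hlen] at hPq
    push_cast at hPq
    have : ((c : ℤ)) * q ≤ P := by linarith
    exact_mod_cast this
  obtain ⟨t, ht⟩ := Nat.exists_eq_add_of_le hle
  -- parity
  have ht2 : Even t := by
    have h4 := congrArg d hrel
    rw [map_pow, map_pow, dM, dl _ hdl, hlen, ← pow_mul] at h4
    rw [ht, pow_add, add_mul, pow_add] at h4
    have h5 : ((-1 : ℤˣ)) ^ (2 * q) = 1 := by rw [pow_mul]; simp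
    rw [h5, mul_one] at h4
    have h6 := left_eq_mul.mp h4
    by_contra h
    rw [Nat.not_even_iff_odd] at h
    rw [h.neg_one_pow] at h6
    exact absurd h6 (by decide)
  obtain ⟨e, he⟩ := ht2
  rcases Nat.eq_zero_or_pos e with h0 | h0
  · have ht0 : t = 0 := by omega
    rw [ht0, add_zero] at ht
    rw [ht] at h3
    rcases Nat.eq_zero_or_pos c with hc0 | hc0
    · rw [hc0, zero_mul] at ht; omega
    · rcases Nat.eq_zero_or_pos q with hq0 | hq0
      · rw [hq0, mul_zero] at ht; omega
      · exact (h3.2 hc0 hq0).irrefl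
  · have h4 := up_pow hinv hM e h0 (M ^ (c * q) * s)
    have e1 : M ^ (2 * e) * (M ^ (c * q) * s) = M ^ P * s := by
      rw [← mul_assoc, ← pow_add, ht, he]; congr 2; omega
    rw [e1] at h4
    exact (h3.1.trans_lt hinv h4).irrefl

end Pool.Agent.Helper50.AD
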