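import Mathlib

set_option autoImplicit false

/-!
# Curves in the strip of an infinite diagram

`n` strands run from left to right; `(τ, k)` is the position of strand `k < n` at time `τ`, between
the gaps `k` and `k + 1`. Between the times `τ` and `τ + 1` there is a tangle between the strands
`i τ` and `i τ + 1`, so that the gap `i τ + 1` is interrupted there; all other gaps continue. If `T τ`
then the strands turn back in this tangle, so that the gaps `i τ` and `i τ + 2` are connected
there. A site is a pair `(τ, g)`, `g ≤ n`. A path of sites may cross the strand `(τ, k)` unless it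
is forbidden by `X`, and stays at the times that satisfy `P`.
-/

namespace Pool.Agent.Helper50.AD

open Relation

variable (n : ℕ) (i : ℤ → ℕ) (T : ℤ → Prop)

/-- One step of a path of sites. -/
inductive Step (X : ℤ → ℕ → Prop) (P : ℤ → Prop) : ℤ × ℕ → ℤ × ℕ → Prop
  | down {τ : ℤ} {k : ℕ} (hk : k < n) (hX : ¬ X τ k) (hP : P τ) : Step X P (τ, k) (τ, k + 1)
  | up {τ : ℤ} {k : ℕ} (hk : k < n) (hX : ¬ X τ k) (hP : P τ) : Step X P (τ, k + 1) (τ, k)
  | right {τ : ℤ} {g : ℕ} (hg : g ≠ i τ + 1) (hP : P τ) (hP' : P (τ + 1)) :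
      Step X P (τ, g) (τ + 1, g)
  | left {τ : ℤ} {g : ℕ} (hg : g ≠ i τ + 1) (hP : P τ) (hP' : P (τ + 1)) :
      Step X P (τ + 1, g) (τ, g)
  | thru {τ : ℤ} (hT : T τ) (hP : P τ) (hP' : P (τ + 1)) : Step X P (τ, i τ) (τ, i τ + 2)
  | back {τ : ℤ} (hT : T τ) (hP : P τ) (hP' : P (τ + 1)) : Step X P (τ, i τ + 2) (τ, i τ)

/-- The site can be reached from above. -/
def Reach (X : ℤ → ℕ → Prop) (P : ℤ → Prop) (p : ℤ × ℕ) : Prop :=
  ∃ τ, P τ ∧ ReflTransGen (Step n i T X P) (τ, 0) p

variable {n i T}
variable {X : ℤ → ℕ → Prop} {P : ℤ → Prop}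

theorem Step.symm {p q : ℤ × ℕ} (h : Step n i T X P p q) : Step n i T X P q p := by
  cases h with
  | down a b c => exact .up a b c
  | up a b c => exact .down a b c
  | right a b c => exact .left a b c
  | left a b c => exact .right a b c
  | thru a b c => exact .back a b c
  | back a b c => exact .thru a b c

/-- Counting how often a path crosses a strand up to time `τ`. -/
theorem exists_count {p : ℤ × ℕ} (h : Reach n i T X P p) :
    ∃ C : ℤ → ℕ → ℤ,
      (∀ τ k, X (τ + 1) k → (T τ → k ≠ i τ ∧ k ≠ i τ + 1) → C (τ + 1) k = C τ k) ∧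
      (∀ τ, X (τ + 1) (i τ) → X (τ + 1) (i τ + 1) →
        C (τ + 1) (i τ) - C (τ + 1) (i τ + 1) = C τ (i τ) - C τ (i τ + 1)) ∧
      (∀ τ, C τ (i τ) - C τ (i τ + 1) = if p.2 = i τ + 1 ∧ p.1 ≤ τ then 1 else 0) ∧
      (∀ τ, (∀ σ, P σ → τ < σ) → ∀ k, C τ k = 0) ∧
      (∀ τ, (∀ σ, P σ → σ ≤ τ) → ∀ k, C τ k = if k < p.2 then 1 else 0) ∧
      (∃ t, ∀ τ, t ≤ τ → ∀ k, C τ k = if k < p.2 then 1 else 0) ∧
      (∃ t, ∀ τ, τ < t → ∀ k, C τ k = 0) := by
  obtain ⟨τ₀, -, h⟩ := h
  induction h with
  | refl =>
    refine ⟨fun _ _ => 0, fun _ _ _ _ => rfl, fun _ _ _ => rfl, fun τ => ?_, fun _ _ _ => rfl,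
      fun _ _ _ => ?_, ⟨0, fun _ _ _ => ?_⟩, ⟨0, fun _ _ _ => rfl⟩⟩
    · simp
    · simp
    · simp
  | @tail b c _ hbc ih =>
    obtain ⟨C, h1, h1', h2, h3, h4, ⟨t, h5⟩, ⟨t', h6⟩⟩ := ih
    cases hbc with
    | @down σ g hk hX hP =>
      refine ⟨fun τ k => C τ k + if k = g ∧ σ ≤ τ then 1 else 0, fun τ k hX' hT' => ?_,
        fun τ hX' hX'' => ?_, fun τ => ?_,
        fun τ hτ k => ?_, fun τ hτ k => ?_, ⟨max t σ, fun τ hτ k => ?_⟩,
        ⟨min t' σ, fun τ hτ k => ?_⟩⟩
      · dsimp only
        rw [h1 τ k hX' hT']
        congr 1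
        by_cases hkg : k = g
        · subst hkg
          have hne : τ + 1 ≠ σ := by
            rintro rfl
            exact hX hX'
          split_ifs <;> omega
        · simp [hkg]
      · have h7 := h1' τ hX' hX''
        dsimp only at h7 ⊢
        have h8 : i τ = g → τ + 1 ≠ σ := by
          rintro rfl rfl
          exact hX hX'
        have h9 : i τ + 1 = g → τ + 1 ≠ σ := by
          rintro rfl rfl
          exact hX hX''
        split_ifs <;> omega
      · have := h2 τ
        dsimp only at this ⊢
        split_ifs at this ⊢ <;> omega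
      · dsimp only
        rw [h3 τ hτ k, if_neg]
        · rfl
        · rintro ⟨_, h⟩
          have := hτ σ hP
          omega
      · have := h4 τ hτ k
        have h7 := hτ σ hP
        dsimp only at this ⊢
        split_ifs at this ⊢ <;> omega
      · have := h5 τ (le_trans (le_max_left _ _) hτ) k
        have h7 := le_trans (le_max_right _ _) hτ
        dsimp only at this ⊢
        split_ifs at this ⊢ <;> omega
      · have := h6 τ (lt_of_lt_of_le hτ (min_le_left _ _)) k
        have h7 := lt_of_lt_of_le hτ (min_le_right _ _)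
        dsimp only at this ⊢
        split_ifs at this ⊢ <;> omega
    | @up σ g hk hX hP =>
      refine ⟨fun τ k => C τ k - if k = g ∧ σ ≤ τ then 1 else 0, fun τ k hX' hT' => ?_,
        fun τ hX' hX'' => ?_, fun τ => ?_,
        fun τ hτ k => ?_, fun τ hτ k => ?_, ⟨max t σ, fun τ hτ k => ?_⟩,
        ⟨min t' σ, fun τ hτ k => ?_⟩⟩
      · dsimp only
        rw [h1 τ k hX' hT']
        congr 1
        by_cases hkg : k = g
        · subst hkg
          have hne : τ + 1 ≠ σ := by
            rintro rfl
            exact hX hX'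
          split_ifs <;> omega
        · simp [hkg]
      · have h7 := h1' τ hX' hX''
        dsimp only at h7 ⊢
        have h8 : i τ = g → τ + 1 ≠ σ := by
          rintro rfl rfl
          exact hX hX'
        have h9 : i τ + 1 = g → τ + 1 ≠ σ := by
          rintro rfl rfl
          exact hX hX''
        split_ifs <;> omega
      · have := h2 τ
        dsimp only at this ⊢
        split_ifs at this ⊢ <;> omega
      · dsimp only
        rw [h3 τ hτ k, if_neg]
        · rfl
        · rintro ⟨_, h⟩
          have := hτ σ hP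
          omega
      · have := h4 τ hτ k
        have h7 := hτ σ hP
        dsimp only at this ⊢
        split_ifs at this ⊢ <;> omega
      · have := h5 τ (le_trans (le_max_left _ _) hτ) k
        have h7 := le_trans (le_max_right _ _) hτ
        dsimp only at this ⊢
        split_ifs at this ⊢ <;> omega
      · have := h6 τ (lt_of_lt_of_le hτ (min_le_left _ _)) k
        have h7 := lt_of_lt_of_le hτ (min_le_right _ _)
        dsimp only at this ⊢
        split_ifs at this ⊢ <;> omega
    | @right σ g hg hP hP' =>
      refine ⟨C, h1, h1', fun τ => ?_, h3, h4, ⟨t, h5⟩, ⟨t', h6⟩⟩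
      have := h2 τ
      dsimp only at this ⊢
      by_cases hτ : τ = σ
      · subst hτ
        rw [this, if_neg, if_neg]
        · rintro ⟨h, _⟩; exact hg h
        · rintro ⟨h, _⟩; exact hg h
      · split_ifs at this ⊢ <;> omega
    | @left σ g hg hP hP' =>
      refine ⟨C, h1, h1', fun τ => ?_, h3, h4, ⟨t, h5⟩, ⟨t', h6⟩⟩
      have := h2 τ
      dsimp only at this ⊢
      by_cases hτ : τ = σ
      · subst hτ
        rw [this, if_neg, if_neg]
        · rintro ⟨h, _⟩; exact hg h
        · rintro ⟨h, _⟩; exact hg h
      · split_ifs at this ⊢ <;> omega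
    | @thru σ hT hP hP' =>
      refine ⟨fun τ k => C τ k + if (k = i σ ∨ k = i σ + 1) ∧ σ < τ then 1 else 0,
        fun τ k hX' hT' => ?_, fun τ hX' hX'' => ?_, fun τ => ?_,
        fun τ hτ k => ?_, fun τ hτ k => ?_, ⟨max t (σ + 1), fun τ hτ k => ?_⟩,
        ⟨min t' σ, fun τ hτ k => ?_⟩⟩
      · dsimp only
        rw [h1 τ k hX' hT']
        congr 1
        by_cases hτ : τ = σ
        · subst hτ
          have := hT' hT
          split_ifs <;> omega
        · split_ifs <;> omega
      · have h7 := h1' τ hX' hX''
        dsimp only at h7 ⊢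
        by_cases hτ : τ = σ
        · subst hτ
          split_ifs <;> omega
        · split_ifs <;> omega
      · have := h2 τ
        dsimp only at this ⊢
        by_cases hτ : τ = σ
        · subst hτ
          split_ifs at this ⊢ <;> omega
        · split_ifs at this ⊢ <;> omega
      · dsimp only
        rw [h3 τ hτ k, if_neg]
        · rfl
        · rintro ⟨_, h⟩
          have := hτ σ hP
          omega
      · have := h4 τ hτ k
        have h7 := hτ (σ + 1) hP'
        dsimp only at this ⊢
        split_ifs at this ⊢ <;> omega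
      · have := h5 τ (le_trans (le_max_left _ _) hτ) k
        have h7 := le_trans (le_max_right _ _) hτ
        dsimp only at this ⊢
        split_ifs at this ⊢ <;> omega
      · have := h6 τ (lt_of_lt_of_le hτ (min_le_left _ _)) k
        have h7 := lt_of_lt_of_le hτ (min_le_right _ _)
        dsimp only at this ⊢
        split_ifs at this ⊢ <;> omega
    | @back σ hT hP hP' =>
      refine ⟨fun τ k => C τ k - if (k = i σ ∨ k = i σ + 1) ∧ σ < τ then 1 else 0,
        fun τ k hX' hT' => ?_, fun τ hX' hX'' => ?_, fun τ => ?_,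
        fun τ hτ k => ?_, fun τ hτ k => ?_, ⟨max t (σ + 1), fun τ hτ k => ?_⟩,
        ⟨min t' σ, fun τ hτ k => ?_⟩⟩
      · dsimp only
        rw [h1 τ k hX' hT']
        congr 1
        by_cases hτ : τ = σ
        · subst hτ
          have := hT' hT
          split_ifs <;> omega
        · split_ifs <;> omega
      · have h7 := h1' τ hX' hX''
        dsimp only at h7 ⊢
        by_cases hτ : τ = σ
        · subst hτ
          split_ifs <;> omega
        · split_ifs <;> omega
      · have := h2 τ
        dsimp only at this ⊢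
        by_cases hτ : τ = σ
        · subst hτ
          split_ifs at this ⊢ <;> omega
        · split_ifs at this ⊢ <;> omega
      · dsimp only
        rw [h3 τ hτ k, if_neg]
        · rfl
        · rintro ⟨_, h⟩
          have := hτ σ hP
          omega
      · have := h4 τ hτ k
        have h7 := hτ (σ + 1) hP'
        dsimp only at this ⊢
        split_ifs at this ⊢ <;> omega
      · have := h5 τ (le_trans (le_max_left _ _) hτ) k
        have h7 := le_trans (le_max_right _ _) hτ
        dsimp only at this ⊢
        split_ifs at this ⊢ <;> omega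
      · have := h6 τ (lt_of_lt_of_le hτ (min_le_left _ _)) k
        have h7 := lt_of_lt_of_le hτ (min_le_right _ _)
        dsimp only at this ⊢
        split_ifs at this ⊢ <;> omega

end Pool.Agent.Helper50.AD
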