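import Pool.Agent.Helper50.AD.Strip

set_option autoImplicit false

/-!
# The maximum principle

The strands of an infinite alternating diagram carry values in a linear order. If the set of
strands with high values contains no curve from above to below on either side then it is empty,
unless a component of the diagram is finite.
-/

namespace Pool.Agent.Helper50.AD

open Relation

/-- The rule for a tangle of type `δ` with values `a, b` before and `a', b'` after it. -/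
def Move {A : Type*} [LinearOrder A] (δ : Bool) (a b a' b' : A) : Prop :=
  (a = b ∧ a' = a ∧ b' = b) ∨
  (δ = true ∧ a < b ∧ a' < b' ∧ a ≤ a' ∧ b ≤ b') ∨
  (δ = true ∧ b < a ∧ b' < a' ∧ a' ≤ a ∧ b' ≤ b) ∨
  (δ = false ∧ a < b ∧ a' < b' ∧ a' ≤ a ∧ b' ≤ b) ∨
  (δ = false ∧ b < a ∧ b' < a' ∧ a ≤ a' ∧ b ≤ b')

/-- Strands that touch each other: strands pass every tangle that does not satisfy `T`, and the two
strands on each side of a tangle that satisfies `R` touch each other. -/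
inductive Touch (n : ℕ) (i : ℤ → ℕ) (T R : ℤ → Prop) : ℤ × ℕ → ℤ × ℕ → Prop
  | pass {τ : ℤ} {k : ℕ} (hk : k < n) (h : T τ → k ≠ i τ ∧ k ≠ i τ + 1) :
      Touch n i T R (τ, k) (τ + 1, k)
  | before {τ : ℤ} (h : R τ) : Touch n i T R (τ, i τ) (τ, i τ + 1)
  | after {τ : ℤ} (h : R τ) : Touch n i T R (τ + 1, i τ) (τ + 1, i τ + 1)

/-- An infinite alternating diagram with values. -/
structure Diag {A : Type*} [LinearOrder A] (n : ℕ) (i : ℤ → ℕ) (T R : ℤ → Prop) (δ : ℕ → Bool)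
    (v : ℤ → ℕ → A) : Prop where
  hi : ∀ τ, i τ + 2 ≤ n
  hδ : ∀ k, δ (k + 1) = !δ k
  stay : ∀ τ k, k < n → k ≠ i τ → k ≠ i τ + 1 → v (τ + 1) k = v τ k
  move : ∀ τ, ¬ T τ →
    Move (δ (i τ)) (v τ (i τ)) (v τ (i τ + 1)) (v (τ + 1) (i τ)) (v (τ + 1) (i τ + 1))
  turn : ∀ τ, T τ → v τ (i τ) = v τ (i τ + 1) ∧ v (τ + 1) (i τ) = v (τ + 1) (i τ + 1)
  strict : ∀ τ, ¬ T τ → R τ → ∀ k, (k = i τ ∨ k = i τ + 1) → v (τ + 1) k = v τ k →
    v τ (i τ) = v τ (i τ + 1)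

variable {A : Type*} [LinearOrder A] {n : ℕ} {i : ℤ → ℕ} {T R : ℤ → Prop} {δ : ℕ → Bool}
  {v : ℤ → ℕ → A}

theorem Diag.before (D : Diag n i T R δ v) {τ : ℤ} (hT : ¬ T τ) {k : ℕ}
    (hk : k = i τ ∨ k = i τ + 1) (hδ : δ k = false) :
    (∃ l, (l = i τ ∨ l = i τ + 1) ∧ v τ k < v τ l) ∨ v τ k < v (τ + 1) k ∨
      v (τ + 1) k = v τ k := by
  have hm := D.move τ hT
  rcases hk with rfl | rfl
  · rw [hδ] at hm
    rcases hm with ⟨h1, h2, h3⟩ | ⟨h, _⟩ | ⟨h, _⟩ | ⟨_, h1, h2, h3, h4⟩ | ⟨_, h1, h2, h3, h4⟩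
    · exact Or.inr (Or.inr h2)
    · cases h
    · cases h
    · exact Or.inl ⟨_, Or.inr rfl, h1⟩
    · exact Or.inr (h3.lt_or_eq.imp_right Eq.symm)
  · have hδ' : δ (i τ) = true := by
      have := D.hδ (i τ)
      rw [hδ] at this
      simpa using this.symm
    rw [hδ'] at hm
    rcases hm with ⟨h1, h2, h3⟩ | ⟨_, h1, h2, h3, h4⟩ | ⟨_, h1, h2, h3, h4⟩ | ⟨h, _⟩ | ⟨h, _⟩
    · exact Or.inr (Or.inr h3)
    · exact Or.inr (h4.lt_or_eq.imp_right Eq.symm)
    · exact Or.inl ⟨_, Or.inl rfl, h1⟩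
    · cases h
    · cases h

theorem Diag.after (D : Diag n i T R δ v) {τ : ℤ} (hT : ¬ T τ) {k : ℕ}
    (hk : k = i τ ∨ k = i τ + 1) (hδ : δ k = true) :
    (∃ l, (l = i τ ∨ l = i τ + 1) ∧ v (τ + 1) k < v (τ + 1) l) ∨ v (τ + 1) k ≤ v τ k := by
  have hm := D.move τ hT
  have hd := D.hδ (i τ)
  rcases hk with rfl | rfl
  · rw [hδ] at hm hd
    rcases hm with ⟨h1, h2, h3⟩ | ⟨_, h1, h2, h3, h4⟩ | ⟨_, h1, h2, h3, h4⟩ | ⟨h, _⟩ | ⟨h, _⟩
    · exact Or.inr h2.le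
    · exact Or.inl ⟨_, Or.inr rfl, h2⟩
    · exact Or.inr h3
    · cases h
    · cases h
  · have hδ' : δ (i τ) = false := by
      rw [hδ] at hd
      simpa using hd.symm
    rw [hδ'] at hm
    rcases hm with ⟨h1, h2, h3⟩ | ⟨h, _⟩ | ⟨h, _⟩ | ⟨_, h1, h2, h3, h4⟩ | ⟨_, h1, h2, h3, h4⟩
    · exact Or.inr h3.le
    · cases h
    · cases h
    · exact Or.inr h4
    · exact Or.inl ⟨_, Or.inl rfl, h2⟩

open Classical in
/-- One step to the right (`b = false`) or to the left (`b = true`) along a strand. -/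
noncomputable def st (i : ℤ → ℕ) (T : ℤ → Prop) (b : Bool) (z : ℤ × ℕ) : ℤ × ℕ :=
  if b = false then
    if T z.1 ∧ z.2 = i z.1 then (z.1, z.2 + 1) else
    if T z.1 ∧ z.2 = i z.1 + 1 then (z.1, z.2 - 1) else (z.1 + 1, z.2)
  else
    if T (z.1 - 1) ∧ z.2 = i (z.1 - 1) then (z.1, z.2 + 1) else
    if T (z.1 - 1) ∧ z.2 = i (z.1 - 1) + 1 then (z.1, z.2 - 1) else (z.1 - 1, z.2)

open Classical in
theorem st_false (τ : ℤ) (k : ℕ) : st i T false (τ, k) =
    if T τ ∧ k = i τ then (τ, k + 1) else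
    if T τ ∧ k = i τ + 1 then (τ, k - 1) else (τ + 1, k) := by
  unfold st
  rw [if_pos rfl]

open Classical in
theorem st_true (σ : ℤ) (k : ℕ) : st i T true (σ + 1, k) =
    if T σ ∧ k = i σ then (σ + 1, k + 1) else
    if T σ ∧ k = i σ + 1 then (σ + 1, k - 1) else (σ, k) := by
  unfold st
  rw [if_neg (by decide)]
  simp only [add_sub_cancel_right]

theorem st_inv (hδ : ∀ k, δ (k + 1) = !δ k) (z : ℤ × ℕ) :
    st i T (!δ (st i T (δ z.2) z).2) (st i T (δ z.2) z) = z := by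
  obtain ⟨τ, k⟩ := z
  show st i T (!δ (st i T (δ k) (τ, k)).2) (st i T (δ k) (τ, k)) = (τ, k)
  cases hk : δ k
  · by_cases h1 : T τ ∧ k = i τ
    · have e : st i T false (τ, k) = (τ, k + 1) := by
        rw [st_false, if_pos h1]
      have h2 : ¬ (T τ ∧ k + 1 = i τ) := fun h => by
        have := h1.2; have := h.2; omega
      have h3 : T τ ∧ k + 1 = i τ + 1 := ⟨h1.1, by rw [h1.2]⟩
      have h4 : δ (k + 1) = true := by rw [hδ, hk]; rfl
      rw [e]
      show st i T (!δ (k + 1)) (τ, k + 1) = (τ, k)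
      rw [h4, Bool.not_true, st_false, if_neg h2, if_pos h3, Nat.add_sub_cancel]
    · by_cases h2 : T τ ∧ k = i τ + 1
      · have e : st i T false (τ, k) = (τ, k - 1) := by
          rw [st_false, if_neg h1, if_pos h2]
        have hk2 := h2.2
        have hk' : k = (k - 1) + 1 := by omega
        have h3 : T τ ∧ k - 1 = i τ := ⟨h2.1, by omega⟩
        have h4 : δ (k - 1) = true := by
          have := hδ (k - 1)
          rw [← hk', hk] at this
          simpa using this.symm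
        rw [e]
        show st i T (!δ (k - 1)) (τ, k - 1) = (τ, k)
        rw [h4, Bool.not_true, st_false, if_pos h3, ← hk']
      · have e : st i T false (τ, k) = (τ + 1, k) := by
          rw [st_false, if_neg h1, if_neg h2]
        rw [e]
        show st i T (!δ k) (τ + 1, k) = (τ, k)
        rw [hk, Bool.not_false, st_true, if_neg h1, if_neg h2]
  · obtain ⟨σ, rfl⟩ : ∃ σ, τ = σ + 1 := ⟨τ - 1, by ring⟩
    by_cases h1 : T σ ∧ k = i σ
    · have e : st i T true (σ + 1, k) = (σ + 1, k + 1) := by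
        rw [st_true, if_pos h1]
      have h2 : ¬ (T σ ∧ k + 1 = i σ) := fun h => by
        have := h1.2; have := h.2; omega
      have h3 : T σ ∧ k + 1 = i σ + 1 := ⟨h1.1, by rw [h1.2]⟩
      have h4 : δ (k + 1) = false := by rw [hδ, hk]; rfl
      rw [e]
      show st i T (!δ (k + 1)) (σ + 1, k + 1) = (σ + 1, k)
      rw [h4, Bool.not_false, st_true, if_neg h2, if_pos h3, Nat.add_sub_cancel]
    · by_cases h2 : T σ ∧ k = i σ + 1
      · have e : st i T true (σ + 1, k) = (σ + 1, k - 1) := by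
          rw [st_true, if_neg h1, if_pos h2]
        have hk2 := h2.2
        have hk' : k = (k - 1) + 1 := by omega
        have h3 : T σ ∧ k - 1 = i σ := ⟨h2.1, by omega⟩
        have h4 : δ (k - 1) = false := by
          have := hδ (k - 1)
          rw [← hk', hk] at this
          simpa using this.symm
        rw [e]
        show st i T (!δ (k - 1)) (σ + 1, k - 1) = (σ + 1, k)
        rw [h4, Bool.not_false, st_true, if_pos h3, ← hk']
      · have e : st i T true (σ + 1, k) = (σ, k) := by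
          rw [st_true, if_neg h1, if_neg h2]
        rw [e]
        show st i T (!δ k) (σ, k) = (σ + 1, k)
        rw [hk, Bool.not_true, st_false, if_neg h1, if_neg h2]

/-- A strand with a high value that is enclosed by curves of strands with low values. -/
theorem trap (D : Diag n i T R δ v) {H : ℤ → ℕ → Prop}
    (hess : ∀ Z : Finset (ℤ × ℕ), (∀ z ∈ Z, z.2 < n) →
      (∀ a b, Touch n i T R a b → (a ∈ Z ↔ b ∈ Z)) → Z = ∅)
    (hH : ∀ τ k τ' k', k' < n → H τ k → v τ k ≤ v τ' k' → H τ' k')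
    {τ₀ : ℤ} {k₀ : ℕ} (hk₀ : k₀ < n) (h₀ : H τ₀ k₀)
    (hr : ∃ τ, Reach n i T H (fun σ => τ₀ + 1 ≤ σ) (τ, n))
    (hl : ∃ τ, Reach n i T H (fun σ => σ ≤ τ₀) (τ, n)) : False := by
  classical
  obtain ⟨τr, hr⟩ := hr
  obtain ⟨τl, hl⟩ := hl
  obtain ⟨C, c1, c1', c2, c3, -, ⟨t, c5⟩, -⟩ := exists_count hr
  obtain ⟨E, e1, e1', e2, -, e4, -, ⟨s, e6⟩⟩ := exists_count hl
  have c2' : ∀ τ, C τ (i τ) = C τ (i τ + 1) := by
    intro τ
    have := c2 τ
    rw [if_neg] at this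
    · omega
    · rintro ⟨h, _⟩
      have h' : n = i τ + 1 := h
      have := D.hi τ
      omega
  have e2' : ∀ τ, E τ (i τ) = E τ (i τ + 1) := by
    intro τ
    have := e2 τ
    rw [if_neg] at this
    · omega
    · rintro ⟨h, _⟩
      have h' : n = i τ + 1 := h
      have := D.hi τ
      omega
  -- the enclosed strands
  let Q : ℤ × ℕ → Prop := fun z => z.2 < n ∧ H z.1 z.2 ∧ C z.1 z.2 = 0 ∧ E z.1 z.2 = 1
  have q0 : Q (τ₀, k₀) := by
    refine ⟨hk₀, h₀, c3 τ₀ (fun σ hσ => by omega) k₀, ?_⟩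
    have := e4 τ₀ (fun σ hσ => hσ) k₀
    rw [if_pos hk₀] at this
    exact this
  have qT : ∀ τ k, Q (τ, k) → τ < t := by
    rintro τ k ⟨h1, _, h3, _⟩
    by_contra hcon
    have := c5 τ (not_lt.mp hcon) k
    rw [if_pos h1] at this
    rw [this] at h3
    exact one_ne_zero h3
  have qS : ∀ τ k, Q (τ, k) → s ≤ τ := by
    rintro τ k ⟨_, _, _, h4⟩
    by_contra hcon
    have := e6 τ (not_le.mp hcon) k
    rw [this] at h4
    exact zero_ne_one h4
  have hln : ∀ τ l, (l = i τ ∨ l = i τ + 1) → l < n := by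
    intro τ l hl
    have := D.hi τ
    rcases hl with rfl | rfl <;> omega
  have step_r : ∀ τ k, Q (τ, k) → k ≠ i τ → k ≠ i τ + 1 → Q (τ + 1, k) := by
    rintro τ k ⟨h1, h2, h3, h4⟩ h5 h6
    have h7 : H (τ + 1) k := hH _ _ _ _ h1 h2 (D.stay τ k h1 h5 h6).ge
    exact ⟨h1, h7, (c1 τ k h7 fun _ => ⟨h5, h6⟩).trans h3, (e1 τ k h7 fun _ => ⟨h5, h6⟩).trans h4⟩
  have step_l : ∀ τ k, Q (τ + 1, k) → k ≠ i τ → k ≠ i τ + 1 → Q (τ, k) := by
    rintro τ k ⟨h1, h2, h3, h4⟩ h5 h6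
    have h7 : H τ k := hH _ _ _ _ h1 h2 (D.stay τ k h1 h5 h6).le
    exact ⟨h1, h7, (c1 τ k h2 fun _ => ⟨h5, h6⟩).symm.trans h3,
      (e1 τ k h2 fun _ => ⟨h5, h6⟩).symm.trans h4⟩
  -- at a tangle
  have side : ∀ τ, C τ (i τ) = 0 → E τ (i τ) = 1 → ∀ l, (l = i τ ∨ l = i τ + 1) →
      H τ l → Q (τ, l) := by
    intro τ h1 h2 l hl h
    rcases hl with rfl | rfl
    · exact ⟨hln τ _ (Or.inl rfl), h, h1, h2⟩
    · exact ⟨hln τ _ (Or.inr rfl), h, by rw [← c2']; exact h1, by rw [← e2']; exact h2⟩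
  have cr : ∀ τ, ¬ T τ → C τ (i τ) = 0 → E τ (i τ) = 1 → ∀ l, (l = i τ ∨ l = i τ + 1) →
      H (τ + 1) l → Q (τ + 1, l) := by
    intro τ hT h1 h2 l hl h
    have h3 : C τ l = 0 ∧ E τ l = 1 := by
      rcases hl with rfl | rfl
      · exact ⟨h1, h2⟩
      · exact ⟨by rw [← c2']; exact h1, by rw [← e2']; exact h2⟩
    exact ⟨hln τ l hl, h, (c1 τ l h fun h' => absurd h' hT).trans h3.1,
      (e1 τ l h fun h' => absurd h' hT).trans h3.2⟩
  have cr_b : ∀ τ k, Q (τ, k) → (k = i τ ∨ k = i τ + 1) → C τ (i τ) = 0 ∧ E τ (i τ) = 1 := by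
    rintro τ k ⟨_, _, h3, h4⟩ hk
    rcases hk with rfl | rfl
    · exact ⟨h3, h4⟩
    · exact ⟨by rw [c2']; exact h3, by rw [e2']; exact h4⟩
  have cr_a : ∀ τ k, ¬ T τ → Q (τ + 1, k) → (k = i τ ∨ k = i τ + 1) →
      C τ (i τ) = 0 ∧ E τ (i τ) = 1 := by
    rintro τ k hT ⟨_, h2, h3, h4⟩ hk
    have h7 : C τ k = 0 := by rw [← c1 τ k h2 fun h' => absurd h' hT]; exact h3
    have h8 : E τ k = 1 := by rw [← e1 τ k h2 fun h' => absurd h' hT]; exact h4
    rcases hk with rfl | rfl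
    · exact ⟨h7, h8⟩
    · exact ⟨by rw [c2']; exact h7, by rw [e2']; exact h8⟩
  let Z : Finset (ℤ × ℕ) := (Finset.Icc s t ×ˢ Finset.range n).filter Q
  have hZ : ∀ z, z ∈ Z ↔ Q z := by
    rintro ⟨τ, k⟩
    simp only [Z, Finset.mem_filter, Finset.mem_product, Finset.mem_Icc, Finset.mem_range]
    exact ⟨fun h => h.2, fun h => ⟨⟨⟨qS _ _ h, (qT _ _ h).le⟩, h.1⟩, h⟩⟩
  obtain ⟨zm, hzm, hmax⟩ := Z.exists_max_image (fun z => v z.1 z.2) ⟨_, (hZ _).mpr q0⟩
  have hmax' : ∀ τ k, Q (τ, k) → v τ k ≤ v zm.1 zm.2 := fun τ k h => hmax _ ((hZ _).mpr h)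
  set M := v zm.1 zm.2 with hM
  let W : Finset (ℤ × ℕ) := Z.filter fun z => v z.1 z.2 = M
  have hW : ∀ τ k, (τ, k) ∈ W ↔ Q (τ, k) ∧ v τ k = M := by
    intro τ k
    simp only [W, Finset.mem_filter, hZ]
  -- both sides of a turn
  have p3 : ∀ τ, v τ (i τ) = v τ (i τ + 1) → ((τ, i τ) ∈ W ↔ (τ, i τ + 1) ∈ W) := by
    intro τ he
    rw [hW, hW]
    constructor
    · rintro ⟨h1, h2⟩
      obtain ⟨h3, h4⟩ := cr_b _ _ h1 (Or.inl rfl)
      exact ⟨side τ h3 h4 _ (Or.inr rfl) (hH _ _ _ _ (hln τ _ (Or.inr rfl)) h1.2.1 he.le),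
        he.symm.trans h2⟩
    · rintro ⟨h1, h2⟩
      obtain ⟨h3, h4⟩ := cr_b _ _ h1 (Or.inr rfl)
      exact ⟨side τ h3 h4 _ (Or.inl rfl) (hH _ _ _ _ (hln τ _ (Or.inl rfl)) h1.2.1 he.ge),
        he.trans h2⟩
  have p4 : ∀ τ, v (τ + 1) (i τ) = v (τ + 1) (i τ + 1) →
      ((τ + 1, i τ) ∈ W ↔ (τ + 1, i τ + 1) ∈ W) := by
    intro τ he
    rw [hW, hW]
    constructor
    · rintro ⟨h1, h2⟩
      have h3 : H (τ + 1) (i τ + 1) := hH _ _ _ _ (hln τ _ (Or.inr rfl)) h1.2.1 he.le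
      have h4 := c1' τ h1.2.1 h3
      have h5 := e1' τ h1.2.1 h3
      rw [c2', sub_self, sub_eq_zero] at h4
      rw [e2', sub_self, sub_eq_zero] at h5
      exact ⟨⟨hln τ _ (Or.inr rfl), h3, h4.symm.trans h1.2.2.1, h5.symm.trans h1.2.2.2⟩,
        he.symm.trans h2⟩
    · rintro ⟨h1, h2⟩
      have h3 : H (τ + 1) (i τ) := hH _ _ _ _ (hln τ _ (Or.inl rfl)) h1.2.1 he.ge
      have h4 := c1' τ h3 h1.2.1
      have h5 := e1' τ h3 h1.2.1
      rw [c2', sub_self, sub_eq_zero] at h4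
      rw [e2', sub_self, sub_eq_zero] at h5
      exact ⟨⟨hln τ _ (Or.inl rfl), h3, h4.trans h1.2.2.1, h5.trans h1.2.2.2⟩, he.trans h2⟩
  -- forward
  have p1 : ∀ τ k, (τ, k) ∈ W → δ k = false → ¬ (T τ ∧ (k = i τ ∨ k = i τ + 1)) →
      (τ + 1, k) ∈ W := by
    intro τ k hw hδk hT
    rw [hW] at hw ⊢
    obtain ⟨hq, hzM⟩ := hw
    by_cases hk : k = i τ ∨ k = i τ + 1
    · have hT' : ¬ T τ := fun h => hT ⟨h, hk⟩
      obtain ⟨h1, h2⟩ := cr_b _ _ hq hk
      rcases D.before hT' hk hδk with ⟨l, hl, h3⟩ | h3 | h3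
      · have := hmax' _ _ (side τ h1 h2 l hl (hH _ _ _ _ (hln τ l hl) hq.2.1 h3.le))
        rw [← hzM] at this
        exact absurd h3 (not_lt.mpr this)
      · have := hmax' _ _ (cr τ hT' h1 h2 k hk (hH _ _ _ _ hq.1 hq.2.1 h3.le))
        rw [← hzM] at this
        exact absurd h3 (not_lt.mpr this)
      · exact ⟨cr τ hT' h1 h2 k hk (hH _ _ _ _ hq.1 hq.2.1 h3.ge), h3.trans hzM⟩
    · rw [not_or] at hk
      exact ⟨step_r τ k hq hk.1 hk.2, (D.stay τ k hq.1 hk.1 hk.2).trans hzM⟩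
  have p2 : ∀ τ k, (τ + 1, k) ∈ W → δ k = true → ¬ (T τ ∧ (k = i τ ∨ k = i τ + 1)) →
      (τ, k) ∈ W := by
    intro τ k hw hδk hT
    rw [hW] at hw ⊢
    obtain ⟨hq, hzM⟩ := hw
    by_cases hk : k = i τ ∨ k = i τ + 1
    · have hT' : ¬ T τ := fun h => hT ⟨h, hk⟩
      obtain ⟨h1, h2⟩ := cr_a _ _ hT' hq hk
      rcases D.after hT' hk hδk with ⟨l, hl, h3⟩ | h3
      · have := hmax' _ _ (cr τ hT' h1 h2 l hl (hH _ _ _ _ (hln τ l hl) hq.2.1 h3.le))
        rw [← hzM] at this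
        exact absurd h3 (not_lt.mpr this)
      · have h4 := side τ h1 h2 k hk (hH _ _ _ _ hq.1 hq.2.1 h3)
        exact ⟨h4, le_antisymm (hmax' _ _ h4) (hzM ▸ h3)⟩
    · rw [not_or] at hk
      exact ⟨step_l τ k hq hk.1 hk.2, (D.stay τ k hq.1 hk.1 hk.2).symm.trans hzM⟩
  -- the successor map
  have maps : ∀ z ∈ W, st i T (δ z.2) z ∈ W := by
    rintro ⟨τ, k⟩ hz
    show st i T (δ k) (τ, k) ∈ W
    cases hk : δ k
    · rw [st_false]
      split_ifs with h1 h2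
      · obtain ⟨hT, rfl⟩ := h1
        exact (p3 τ (D.turn τ hT).1).mp hz
      · obtain ⟨hT, rfl⟩ := h2
        exact (p3 τ (D.turn τ hT).1).mpr hz
      · exact p1 τ k hz hk fun h => h.2.elim (fun h' => h1 ⟨h.1, h'⟩) (fun h' => h2 ⟨h.1, h'⟩)
    · obtain ⟨σ, rfl⟩ : ∃ σ, τ = σ + 1 := ⟨τ - 1, by ring⟩
      rw [st_true]
      split_ifs with h1 h2
      · obtain ⟨hT, rfl⟩ := h1
        exact (p4 σ (D.turn σ hT).2).mp hz
      · obtain ⟨hT, rfl⟩ := h2
        exact (p4 σ (D.turn σ hT).2).mpr hz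
      · exact p2 σ k hz hk fun h => h.2.elim (fun h' => h1 ⟨h.1, h'⟩) (fun h' => h2 ⟨h.1, h'⟩)
  have inv : ∀ z ∈ W, st i T (!δ z.2) z ∈ W := by
    intro z hz
    have hs : Set.SurjOn (fun z => st i T (δ z.2) z) (W : Set (ℤ × ℕ)) W := by
      refine Finset.surjOn_of_injOn_of_card_le _ (fun z hz => maps z hz) ?_ le_rfl
      intro a _ b _ hab
      have hab : st i T (δ a.2) a = st i T (δ b.2) b := hab
      rw [← st_inv (i := i) (T := T) D.hδ a, hab, st_inv (i := i) (T := T) D.hδ b]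
    obtain ⟨y, hy, rfl⟩ := hs hz
    show st i T (!δ (st i T (δ y.2) y).2) (st i T (δ y.2) y) ∈ W
    rw [st_inv D.hδ]
    exact hy
  have pass : ∀ τ k, k < n → (T τ → k ≠ i τ ∧ k ≠ i τ + 1) → ((τ, k) ∈ W ↔ (τ + 1, k) ∈ W) := by
    intro τ k _ hT
    have hT' : ¬ (T τ ∧ (k = i τ ∨ k = i τ + 1)) := fun h => by
      have := hT h.1
      omega
    have h1 : ¬ (T τ ∧ k = i τ) := fun h => (hT h.1).1 h.2
    have h2 : ¬ (T τ ∧ k = i τ + 1) := fun h => (hT h.1).2 h.2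
    cases hk : δ k
    · refine ⟨fun h => p1 τ k h hk hT', fun h => ?_⟩
      have := inv _ h
      rw [show δ ((τ + 1, k) : ℤ × ℕ).2 = false from hk, Bool.not_false, st_true, if_neg h1,
        if_neg h2] at this
      exact this
    · refine ⟨fun h => ?_, fun h => p2 τ k h hk hT'⟩
      have := inv _ h
      rw [show δ ((τ, k) : ℤ × ℕ).2 = true from hk, Bool.not_true, st_false, if_neg h1,
        if_neg h2] at this
      exact this
  have bef : ∀ τ, R τ → ((τ, i τ) ∈ W ↔ (τ, i τ + 1) ∈ W) := by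
    intro τ hR
    by_cases hT : T τ
    · exact p3 τ (D.turn τ hT).1
    · have key : ∀ k, (k = i τ ∨ k = i τ + 1) → (τ, k) ∈ W → v τ (i τ) = v τ (i τ + 1) := by
        intro k hk h
        have h1 := (pass τ k (hln τ k hk) fun h' => absurd h' hT).mp h
        exact D.strict τ hT hR k hk ((((hW _ _).mp h1).2).trans ((hW _ _).mp h).2.symm)
      exact ⟨fun h => (p3 τ (key _ (Or.inl rfl) h)).mp h,
        fun h => (p3 τ (key _ (Or.inr rfl) h)).mpr h⟩
  have hWe : W = ∅ := by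
    refine hess W ?_ ?_
    · rintro ⟨τ, k⟩ hz
      exact ((hW _ _).mp hz).1.1
    · intro a b hab
      cases hab with
      | @pass τ k hk h => exact pass τ k hk h
      | @before τ h => exact bef τ h
      | @after τ h =>
        by_cases hT : T τ
        · exact p4 τ (D.turn τ hT).2
        · rw [← pass τ _ (hln τ _ (Or.inl rfl)) fun h' => absurd h' hT,
            ← pass τ _ (hln τ _ (Or.inr rfl)) fun h' => absurd h' hT]
          exact bef τ h
  have : zm ∈ W := (hW zm.1 zm.2).mpr ⟨(hZ _).mp hzm, rfl⟩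
  rw [hWe] at this
  exact absurd this (Finset.notMem_empty _)

end Pool.Agent.Helper50.AD
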